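import Pool.Agent.Q191.QGraphLol2

set_option autoImplicit false

open Set Q191.QGraph Q191.QGraph.MGraph

namespace Pool.Agent.Results.MP_159dfd_an.BridgeInfiniteHotSpots

/-- There is a compact metric graph with a bridge, with the standard Laplacian, whose set of hot
spots is infinite. -/
theorem result : ∃ G : MGraph, G.Connected ∧ (∃ e : G.E, G.IsBridge e) ∧ G.HotSpots.Infinite :=
  ⟨lol, lol_connected, ⟨(2 : Fin 4), lol_bridge⟩, lol_infinite⟩

end Pool.Agent.Results.MP_159dfd_an.BridgeInfiniteHotSpots
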